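import Mathlib

/-!
# A strictly `G`-additive Steiner 2-design that is not `G`-regular

For `G = ℤ₂ × ℤ₂ × ℤ₄` there is a strictly `G`-additive `2`-`(16,4,1)` design, whereas no
`2`-`(16,4,1)` design is `G`-regular.
-/

set_option autoImplicit false

open Finset

namespace Pool.Agent.Results.MP_6c2242_co.AdditiveNotRegular

/-- `(V, blocks)` is a `2`-`(v,k,1)` design with `v = |V|`: `2 ≤ k ≤ v`, all blocks have `k`
elements, and every two distinct points lie in exactly one block. -/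
def IsSteiner (V : Type) [Fintype V] (k : ℕ) (blocks : Set (Finset V)) : Prop :=
  2 ≤ k ∧ k ≤ Fintype.card V ∧ (∀ B ∈ blocks, B.card = k) ∧
    ∀ x y : V, x ≠ y → ∃! B : Finset V, B ∈ blocks ∧ x ∈ B ∧ y ∈ B

/-- Strictly `G`-additive: there is a bijection `f : V → G` with `∑_{x ∈ B} f x = 0` for every
block `B`. -/
def StrictlyAdditive (G : Type) [AddCommGroup G] (V : Type) (blocks : Set (Finset V)) : Prop :=
  ∃ f : V ≃ G, ∀ B ∈ blocks, ∑ x ∈ B, f x = 0

/-- `G`-regular: there is a bijection `f : V → G` such that `f(B) + g` is the image under `f` of a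
block, for every block `B` and every `g ∈ G`. -/
def GRegular (G : Type) [AddCommGroup G] (V : Type) (blocks : Set (Finset V)) : Prop :=
  ∃ f : V ≃ G, ∀ B ∈ blocks, ∀ g : G, ∃ B' ∈ blocks,
    (B'.map f.toEmbedding : Set G) = (fun z => z + g) '' (B.map f.toEmbedding : Set G)

/-- The group `ℤ₂ × ℤ₂ × ℤ₄` of order `16`. -/
abbrev G16 : Type := ZMod 2 × ZMod 2 × ZMod 4

/-- Twenty zero-sum lists of four elements of `ℤ₂ × ℤ₂ × ℤ₄`. -/
def lineList : List (List G16) :=
  [[(0, 0, 0), (0, 0, 1), (0, 1, 0), (0, 1, 3)],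
   [(0, 0, 0), (0, 0, 2), (1, 0, 0), (1, 0, 2)],
   [(0, 0, 0), (0, 0, 3), (1, 1, 0), (1, 1, 1)],
   [(0, 0, 0), (0, 1, 1), (1, 0, 1), (1, 1, 2)],
   [(0, 0, 0), (0, 1, 2), (1, 0, 3), (1, 1, 3)],
   [(0, 1, 0), (0, 1, 1), (1, 0, 0), (1, 0, 3)],
   [(0, 1, 0), (0, 1, 2), (1, 1, 0), (1, 1, 2)],
   [(0, 0, 2), (0, 1, 0), (1, 0, 1), (1, 1, 1)],
   [(0, 0, 3), (0, 1, 0), (1, 0, 2), (1, 1, 3)],
   [(0, 0, 1), (0, 1, 2), (1, 0, 0), (1, 1, 1)],
   [(0, 0, 1), (0, 1, 1), (1, 0, 2), (1, 1, 0)],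
   [(0, 0, 1), (0, 0, 3), (1, 0, 1), (1, 0, 3)],
   [(0, 0, 1), (0, 0, 2), (1, 1, 2), (1, 1, 3)],
   [(0, 0, 3), (0, 1, 3), (1, 0, 0), (1, 1, 2)],
   [(0, 0, 2), (0, 1, 3), (1, 0, 3), (1, 1, 0)],
   [(0, 1, 2), (0, 1, 3), (1, 0, 1), (1, 0, 2)],
   [(0, 1, 1), (0, 1, 3), (1, 1, 1), (1, 1, 3)],
   [(1, 0, 0), (1, 0, 1), (1, 1, 0), (1, 1, 3)],
   [(0, 0, 2), (0, 0, 3), (0, 1, 1), (0, 1, 2)],
   [(1, 0, 2), (1, 0, 3), (1, 1, 1), (1, 1, 2)]]

/-- The corresponding twenty `4`-subsets: the lines of an affine plane of order `4`. -/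
def lines : Set (Finset G16) := {B | ∃ l ∈ lineList, B = l.toFinset}

theorem list_props : ∀ l ∈ lineList, l.Nodup ∧ l.length = 4 ∧ l.sum = 0 := by decide +kernel

theorem list_pair_count : ∀ x y : G16, x ≠ y →
    (lineList.filter (fun l => decide (x ∈ l ∧ y ∈ l))).length = 1 := by decide +kernel

theorem list_pair (x y : G16) (hxy : x ≠ y) : ∃ l ∈ lineList, (x ∈ l ∧ y ∈ l) ∧
    ∀ l' ∈ lineList, x ∈ l' ∧ y ∈ l' → l' = l := by
  obtain ⟨l, hl⟩ := List.length_eq_one_iff.1 (list_pair_count x y hxy)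
  have hmem : ∀ l', l' ∈ lineList ∧ (x ∈ l' ∧ y ∈ l') ↔ l' = l := by
    intro l'
    have : l' ∈ lineList.filter (fun l => decide (x ∈ l ∧ y ∈ l)) ↔ l' = l := by
      rw [hl, List.mem_singleton]
    rw [List.mem_filter, decide_eq_true_eq] at this
    exact this
  obtain ⟨h1, h2⟩ := (hmem l).2 rfl
  exact ⟨l, h1, h2, fun l' hl' h => (hmem l').1 ⟨hl', h⟩⟩

theorem lines_steiner : IsSteiner G16 4 lines := by
  refine ⟨by norm_num, by decide, ?_, ?_⟩
  · rintro B ⟨l, hl, rfl⟩
    obtain ⟨h1, h2, -⟩ := list_props l hl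
    rw [List.toFinset_card_of_nodup h1, h2]
  · intro x y hxy
    obtain ⟨l, hl, ⟨hx, hy⟩, huniq⟩ := list_pair x y hxy
    refine ⟨l.toFinset, ⟨⟨l, hl, rfl⟩, List.mem_toFinset.2 hx, List.mem_toFinset.2 hy⟩, ?_⟩
    rintro B' ⟨⟨l', hl', rfl⟩, hx', hy'⟩
    rw [huniq l' hl' ⟨List.mem_toFinset.1 hx', List.mem_toFinset.1 hy'⟩]

theorem lines_additive : StrictlyAdditive G16 G16 lines := by
  refine ⟨Equiv.refl _, ?_⟩
  rintro B ⟨l, hl, rfl⟩
  obtain ⟨h1, -, h3⟩ := list_props l hl
  rw [List.sum_toFinset _ h1]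
  simpa using h3

/-- Facts about `ℤ₂ × ℤ₂ × ℤ₄`. -/
theorem double_eq : ∀ z : G16, z + z = 0 ∨ z + z = (0, 0, 2) := by decide

theorem many_order_four : ((univ : Finset G16).filter (fun z => z + z = (0, 0, 2))).card = 8 := by
  decide

/-- There is no translation-invariant `2`-`(16,4,1)` design on `ℤ₂ × ℤ₂ × ℤ₄`. -/
theorem no_invariant (blocks : Set (Finset G16)) (hcard : ∀ B ∈ blocks, B.card = 4)
    (hpair : ∀ x y : G16, x ≠ y → ∃! B : Finset G16, B ∈ blocks ∧ x ∈ B ∧ y ∈ B)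
    (htrans : ∀ B ∈ blocks, ∀ g : G16, B.image (fun z => z + g) ∈ blocks) : False := by
  -- uniqueness in usable form
  have huniq : ∀ B ∈ blocks, ∀ B' ∈ blocks, ∀ x y : G16, x ≠ y → x ∈ B → y ∈ B → x ∈ B' → y ∈ B' →
      B = B' := by
    intro B hB B' hB' x y hxy h1 h2 h3 h4
    obtain ⟨C, _, hC⟩ := hpair x y hxy
    rw [hC B ⟨hB, h1, h2⟩, hC B' ⟨hB', h3, h4⟩]
  -- an involution `d` in a block through `0` forces `x + x ∈ {0, d}` for the other elements
  have hinv : ∀ B ∈ blocks, (0 : G16) ∈ B → ∀ d ∈ B, d ≠ 0 → d + d = 0 →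
      ∀ x ∈ B, x ≠ 0 → x ≠ d → x + x = 0 ∨ x + x = d := by
    intro B hB h0 d hd hd0 hdd x hx hx0 hxd
    have h1 : B.image (fun z => z + d) = B := by
      refine huniq _ (htrans B hB d) B hB 0 d hd0.symm ?_ ?_ h0 hd
      · exact mem_image.2 ⟨d, hd, hdd⟩
      · exact mem_image.2 ⟨0, h0, zero_add d⟩
    have hxd' : x + d ∈ B := by
      rw [← h1]; exact mem_image_of_mem _ hx
    have hne : x ≠ x + d := fun h => hd0 (by simpa using h)
    have h2 : B.image (fun z => z + x) = B := by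
      refine huniq _ (htrans B hB x) B hB x (x + d) hne ?_ ?_ hx hxd'
      · exact mem_image.2 ⟨0, h0, zero_add x⟩
      · exact mem_image.2 ⟨d, hd, add_comm d x⟩
    have hxx : x + x ∈ B := by
      rw [← h2]
      exact mem_image.2 ⟨x, hx, rfl⟩
    have hsub : ({0, d, x, x + d} : Finset G16) ⊆ B := by
      intro z hz
      simp only [mem_insert, mem_singleton] at hz
      rcases hz with rfl | rfl | rfl | rfl
      · exact h0
      · exact hd
      · exact hx
      · exact hxd'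
    have hxd0 : x + d ≠ 0 := by
      intro h
      apply hxd
      have : x = x + d + d := by rw [add_assoc, hdd, add_zero]
      rw [this, h, zero_add]
    have hxdd : x + d ≠ d := fun h => hx0 (by simpa using h)
    have hc4 : ({0, d, x, x + d} : Finset G16).card = 4 := by
      rw [card_insert_of_notMem, card_insert_of_notMem, card_pair hne]
      · rw [mem_insert, mem_singleton]
        push Not
        exact ⟨hxd.symm, hxdd.symm⟩
      · rw [mem_insert, mem_insert, mem_singleton]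
        push Not
        exact ⟨hd0.symm, hx0.symm, hxd0.symm⟩
    have hBeq : ({0, d, x, x + d} : Finset G16) = B :=
      eq_of_subset_of_card_le hsub (by rw [hcard B hB, hc4])
    rw [← hBeq] at hxx
    simp only [mem_insert, mem_singleton] at hxx
    rcases hxx with h | h | h | h
    · left; exact h
    · right; exact h
    · exfalso; apply hx0; simpa using h
    · exfalso; apply hxd; simpa using h
  have hs0 : ((0, 0, 2) : G16) ≠ 0 := by decide
  have hss : ((0, 0, 2) : G16) + (0, 0, 2) = 0 := by decide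
  obtain ⟨S, ⟨hS, hS0, hSs⟩, hSu⟩ := hpair 0 (0, 0, 2) hs0.symm
  -- choose `c` of order four outside `S`
  obtain ⟨c, hc, hcS⟩ : ∃ c : G16, c + c = (0, 0, 2) ∧ c ∉ S := by
    by_contra hcon
    push Not at hcon
    have hsub : (univ : Finset G16).filter (fun z => z + z = (0, 0, 2)) ⊆ S := by
      intro z hz
      exact hcon z (mem_filter.1 hz).2
    have := card_le_card hsub
    rw [many_order_four, hcard S hS] at this
    omega
  have hc0 : c ≠ 0 := by
    rintro rfl
    exact hcS hS0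
  obtain ⟨B, ⟨hB, hB0, hBc⟩, hBu⟩ := hpair 0 c hc0.symm
  -- every further element `x` of `B` equals `c + s`
  have key : ∀ x ∈ B, x ≠ 0 → x ≠ c → x = c + (0, 0, 2) := by
    intro x hx hx0 hxc
    have hx2 : x + x = (0, 0, 2) := by
      rcases double_eq x with h | h
      · exfalso
        rcases hinv B hB hB0 x hx hx0 h c hBc hc0 hxc.symm with h1 | h1
        · rw [hc] at h1
          exact hs0 h1
        · rw [hc] at h1
          have : B = S := huniq B hB S hS 0 x hx0.symm hB0 hx hS0 (h1 ▸ hSs)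
          exact hcS (this ▸ hBc)
      · exact h
    have hB' := htrans B hB (-c)
    have hd0 : x - c ≠ 0 := sub_ne_zero.2 hxc
    have hdd : (x - c) + (x - c) = 0 := by
      have : (x - c) + (x - c) = (x + x) - (c + c) := by abel
      rw [this, hx2, hc, sub_self]
    have h1 := hinv _ hB' (mem_image.2 ⟨c, hBc, add_neg_cancel c⟩) (x - c)
      (mem_image.2 ⟨x, hx, (sub_eq_add_neg x c).symm⟩) hd0 hdd (-c)
      (mem_image.2 ⟨0, hB0, zero_add (-c)⟩) (neg_ne_zero.2 hc0) (by
        intro h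
        apply hx0
        have : x = (x - c) + c := by abel
        rw [this, ← h, neg_add_cancel])
    have h2 : -c + -c = (0, 0, 2) := by
      have : -c + -c = -(c + c) := by abel
      rw [this, hc]
      decide
    rw [h2] at h1
    rcases h1 with h1 | h1
    · exact absurd h1 hs0
    · rw [h1]; abel
  have hle : B ⊆ {0, c, c + (0, 0, 2)} := by
    intro x hx
    rw [mem_insert, mem_insert, mem_singleton]
    by_cases h1 : x = 0
    · left; exact h1
    · by_cases h2 : x = c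
      · right; left; exact h2
      · right; right; exact key x hx h1 h2
  have := card_le_card hle
  have h3 : ({0, c, c + (0, 0, 2)} : Finset G16).card ≤ 3 := card_le_three
  rw [hcard B hB] at this
  omega

/-- No `2`-`(16,4,1)` design is `ℤ₂ × ℤ₂ × ℤ₄`-regular. -/
theorem not_regular (V : Type) [Fintype V] (blocks : Set (Finset V))
    (h : IsSteiner V 4 blocks) : ¬ GRegular G16 V blocks := by
  rintro ⟨f, hf⟩
  obtain ⟨-, -, hcard, hpair⟩ := h
  refine no_invariant {C | ∃ B ∈ blocks, C = B.map f.toEmbedding} ?_ ?_ ?_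
  · rintro C ⟨B, hB, rfl⟩
    rw [card_map]
    exact hcard B hB
  · intro x y hxy
    obtain ⟨B, ⟨hB, hx, hy⟩, huniq⟩ := hpair (f.symm x) (f.symm y) (fun h => hxy (f.symm.injective h))
    refine ⟨B.map f.toEmbedding, ⟨⟨B, hB, rfl⟩, ?_, ?_⟩, ?_⟩
    · exact mem_map.2 ⟨_, hx, f.apply_symm_apply x⟩
    · exact mem_map.2 ⟨_, hy, f.apply_symm_apply y⟩
    · rintro C ⟨⟨B', hB', rfl⟩, hx', hy'⟩
      rw [mem_map_equiv] at hx' hy'
      rw [huniq B' ⟨hB', hx', hy'⟩]
  · rintro C ⟨B, hB, rfl⟩ g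
    obtain ⟨B', hB', h'⟩ := hf B hB g
    refine ⟨B', hB', ?_⟩
    rw [← coe_inj, coe_image]
    exact h'.symm

/-- For `G = ℤ₂ × ℤ₂ × ℤ₄` there is a Steiner 2-design (a `2`-`(16,4,1)` design) that is strictly
`G`-additive but not `G`-regular; moreover no `2`-`(16,4,1)` design at all is `G`-regular. -/
theorem result :
    (∃ (G : Type) (_ : AddCommGroup G) (_ : Finite G) (V : Type) (_ : Fintype V) (k : ℕ)
      (blocks : Set (Finset V)), IsSteiner V k blocks ∧ StrictlyAdditive G V blocks ∧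
        ¬ GRegular G V blocks) ∧
    (IsSteiner G16 4 lines ∧
      StrictlyAdditive G16 G16 lines) ∧
    (∀ (V : Type) [Fintype V] (blocks : Set (Finset V)), IsSteiner V 4 blocks →
      ¬ GRegular G16 V blocks) :=
  ⟨⟨G16, inferInstance, inferInstance, G16, inferInstance, 4, lines,
      lines_steiner, lines_additive, not_regular G16 _ lines_steiner⟩,
    ⟨lines_steiner, lines_additive⟩, fun V _ blocks h => not_regular V blocks h⟩

end Pool.Agent.Results.MP_6c2242_co.AdditiveNotRegular
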